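import Pool.Agent.W555.KS.Core
import Pool.Agent.W289.KS.EmbS
import Pool.Agent.W386.KS.Span
import Pool.Agent.W472.KS.Spec
import Pool.Agent.W460.KS.G1
import Pool.Agent.W304.KS.G2
import Pool.Agent.W386.KS.G3
import Pool.Agent.W398.KS.Phi
import Pool.Agent.W540.KS.Cyc
import Pool.Agent.W689.KS.DD

/-!
# The Kalai-Sarkaria conjecture

If the realization of a simplicial complex `L` with vertices `0, ..., n-1` embeds topologically in
the sphere `S^(d-1)`, `1 ≤ d`, `d + 1 ≤ n`, then its symmetric algebraic shifting `L^s` (over any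
field of characteristic `0`) is contained in the symmetric shifting of the boundary complex of
the cyclic `d`-polytope with `n` vertices.

The vertex `i` of the problem is our vertex `i - 1`, everywhere.
-/

set_option autoImplicit false

namespace Pool.Agent.Results.MP_dd083e_co.KalaiSarkaria

open Finset MvPolynomial

/-- simplicial complex with vertices among `0, ..., n-1`: a family of finsets containing the
empty set and closed under taking subsets -/
def IsComplex {n : ℕ} (L : Finset (Finset (Fin n))) : Prop :=
  ∅ ∈ L ∧ ∀ σ ∈ L, ∀ τ : Finset (Fin n), τ ⊆ σ → τ ∈ L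

/-- the geometric realization, in barycentric coordinates -/
def realization {n : ℕ} (L : Finset (Finset (Fin n))) : Set (Fin n → ℝ) :=
  {x | (∀ i, 0 ≤ x i) ∧ ∑ i, x i = 1 ∧ ∃ σ ∈ L, ∀ i, i ∉ σ → x i = 0}

/-- topologically embeddable in the sphere `S^(d-1)`, the unit sphere of `ℝ^d` -/
def EmbedsInSphere {n : ℕ} (L : Finset (Finset (Fin n))) (d : ℕ) : Prop :=
  ∃ f : realization L → Metric.sphere (0 : EuclideanSpace ℝ (Fin d)) 1, Topology.IsEmbedding f

open Classical in
/-- the boundary complex of the cyclic `d`-polytope with the `n` vertices `(i, i^2, ..., i^d)`,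
`i < n`: the proper subsets `S` which are the set of all vertices on a supporting hyperplane -/
noncomputable def cyclicBoundary (n d : ℕ) : Finset (Finset (Fin n)) :=
  univ.filter (fun S => S ≠ univ ∧ ∃ a : Fin d → ℝ, ∃ c : ℝ,
    (∀ i ∈ S, ∑ j : Fin d, a j * ((i : ℕ) : ℝ) ^ ((j : ℕ) + 1) = c) ∧
    (∀ i : Fin n, i ∉ S → ∑ j : Fin d, a j * ((i : ℕ) : ℝ) ^ ((j : ℕ) + 1) < c))

/-- the Stanley-Reisner ideal, generated by the squarefree monomials of the non-faces -/
noncomputable def srIdeal {n : ℕ} (k : Type*) [Field k] (L : Finset (Finset (Fin n))) :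
    Ideal (MvPolynomial (Fin n) k) :=
  Ideal.span {p | ∃ σ : Finset (Fin n), σ ∉ L ∧ p = ∏ v ∈ σ, X v}

/-- degree reverse lexicographic order with `x_0 > x_1 > ...`: `RevLT m m'` means `m < m'` -/
def RevLT {n : ℕ} (m m' : Fin n →₀ ℕ) : Prop :=
  m.degree < m'.degree ∨ (m.degree = m'.degree ∧ ∃ j, m' j < m j ∧ ∀ i, j < i → m i = m' i)

/-- the monomials of the initial ideal of the ideal `J`: the leading monomials of its elements -/
def inSet {n : ℕ} {k : Type*} [Field k] (J : Ideal (MvPolynomial (Fin n) k)) :
    Set (Fin n →₀ ℕ) :=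
  {m | ∃ f ∈ J, coeff m f ≠ 0 ∧ ∀ m' ∈ f.support, m' ≠ m → RevLT m' m}

/-- the linear substitution `x_i ↦ ∑_j g_ij x_j` -/
noncomputable def linSubst {n : ℕ} {k : Type*} [Field k] (g : Fin n × Fin n → k) :
    MvPolynomial (Fin n) k →ₐ[k] MvPolynomial (Fin n) k :=
  aeval (fun i => ∑ v, C (g (i, v)) * X v)

/-- the ideal `I` written in the coordinates `y_i = ∑_j g_ij x_j`: all `f` with `f(y) ∈ I`. For
invertible `g` it is the image of `I` under the substitution with the inverse matrix, see
`coordIdeal_eq_map` below -/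
noncomputable def coordIdeal {n : ℕ} {k : Type*} [Field k] (g : Fin n × Fin n → k)
    (I : Ideal (MvPolynomial (Fin n) k)) : Ideal (MvPolynomial (Fin n) k) :=
  I.comap (linSubst g)

/-- the monomials of the generic initial ideal: those in the initial ideal of `I` written in the
coordinates given by `g`, for all invertible `g` outside some proper hypersurface -/
def ginSet {n : ℕ} {k : Type*} [Field k] (I : Ideal (MvPolynomial (Fin n) k)) :
    Set (Fin n →₀ ℕ) :=
  {m | ∃ F : MvPolynomial (Fin n × Fin n) k, F ≠ 0 ∧ ∀ g : Fin n × Fin n → k,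
    (Matrix.of (fun i j => g (i, j))).det ≠ 0 → eval g F ≠ 0 → m ∈ inSet (coordIdeal g I)}

/-- the list of the indices of the variables of `m`, with multiplicity, in increasing order -/
noncomputable def idxList {n : ℕ} (m : Fin n →₀ ℕ) : List ℕ :=
  (Multiset.map (fun i : Fin n => (i : ℕ)) (Finsupp.toMultiset m)).sort (· ≤ ·)

/-- `φ(m)`: the `i`-th index (counted from `0`, in increasing order) is increased by `i` -/
noncomputable def phi {n : ℕ} (m : Fin n →₀ ℕ) : Finset ℕ :=
  univ.image (fun i : Fin (idxList m).length => (idxList m).get i + (i : ℕ))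

/-- the symmetric algebraic shifting `K^s` of `K` over `k` (vertices `0, ..., n-1`) -/
def shift {n : ℕ} (k : Type*) [Field k] (K : Finset (Finset (Fin n))) : Set (Finset ℕ) :=
  {S | ∃ m : Fin n →₀ ℕ, m ∉ ginSet (srIdeal k K) ∧ (∀ x ∈ phi m, x < n) ∧ S = phi m}

/-! ### checks of the definition of the generic initial ideal -/

/-- for invertible `g`, `coordIdeal g I` is the image of `I` under the automorphism given by the
inverse matrix -/
theorem coordIdeal_eq_map {n : ℕ} {k : Type*} [Field k] (g h : Fin n × Fin n → k)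
    (hgh : Matrix.of (fun i j => g (i, j)) * Matrix.of (fun i j => h (i, j)) = 1)
    (I : Ideal (MvPolynomial (Fin n) k)) : coordIdeal g I = I.map (linSubst h) := by
  have hhg := mul_eq_one_comm.1 hgh
  have key : ∀ a b : Fin n × Fin n → k,
      Matrix.of (fun i j => a (i, j)) * Matrix.of (fun i j => b (i, j)) = 1 →
      (linSubst b).comp (linSubst a) = AlgHom.id k _ := by
    intro a b hab
    apply MvPolynomial.algHom_ext
    intro i
    have h1 : ∀ j, ∑ v, a (i, v) * b (v, j) = if i = j then 1 else 0 := by
      intro j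
      have := congrFun (congrFun hab i) j
      rw [Matrix.mul_apply] at this
      rw [Matrix.one_apply] at this
      exact this
    rw [AlgHom.comp_apply, AlgHom.id_apply]
    unfold linSubst
    rw [aeval_X, map_sum]
    simp only [map_mul, aeval_X, aeval_C, algebraMap_eq, mul_sum]
    rw [sum_comm]
    have h2 : ∀ j, ∑ v, (C (a (i, v)) * (C (b (v, j)) * X j) : MvPolynomial (Fin n) k) =
        if i = j then X j else 0 := by
      intro j
      have : ∑ v, (C (a (i, v)) * (C (b (v, j)) * X j) : MvPolynomial (Fin n) k) =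
          C (∑ v, a (i, v) * b (v, j)) * X j := by
        rw [map_sum, sum_mul]
        exact sum_congr rfl (fun v _ => by rw [C_mul, mul_assoc])
      rw [this, h1]
      split_ifs <;> simp
    simp only [h2]
    simp
  have e1 := key g h hgh
  have e2 := key h g hhg
  apply le_antisymm
  · intro f hf
    have h1 : linSubst g f ∈ I := hf
    have h2 : linSubst h (linSubst g f) = f := by
      have := congrArg (fun φ : MvPolynomial (Fin n) k →ₐ[k] MvPolynomial (Fin n) k => φ f) e1
      simpa using this
    rw [← h2]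
    exact Ideal.mem_map_of_mem _ h1
  · rw [Ideal.map_le_iff_le_comap]
    intro f hf
    show linSubst g (linSubst h f) ∈ I
    have h2 : linSubst g (linSubst h f) = f := by
      have := congrArg (fun φ : MvPolynomial (Fin n) k →ₐ[k] MvPolynomial (Fin n) k => φ f) e2
      simpa using this
    rw [h2]
    exact hf

/-- if the initial ideal is the same set `G` for all `g` in a nonempty Zariski open set, then
`ginSet I = G` -/
theorem ginSet_eq {n : ℕ} {k : Type*} [Field k] [Infinite k] (I : Ideal (MvPolynomial (Fin n) k))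
    (G : Set (Fin n →₀ ℕ)) (F : MvPolynomial (Fin n × Fin n) k) (hF : F ≠ 0)
    (h : ∀ g : Fin n × Fin n → k, (Matrix.of (fun i j => g (i, j))).det ≠ 0 → eval g F ≠ 0 →
      inSet (coordIdeal g I) = G) : ginSet I = G := by
  ext m
  constructor
  · rintro ⟨F', hF', h'⟩
    set D : MvPolynomial (Fin n × Fin n) k := (Matrix.mvPolynomialX (Fin n) (Fin n) k).det with hD
    have hD0 : D ≠ 0 := Matrix.det_mvPolynomialX_ne_zero (Fin n) k
    have hDg : ∀ g : Fin n × Fin n → k, eval g D = (Matrix.of (fun i j => g (i, j))).det := by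
      intro g
      rw [hD, RingHom.map_det]
      congr 1
      ext i j
      simp [Matrix.mvPolynomialX]
    obtain ⟨g, hg⟩ : ∃ g : Fin n × Fin n → k, eval g (F * F' * D) ≠ 0 := by
      by_contra hcon
      push Not at hcon
      apply mul_ne_zero (mul_ne_zero hF hF') hD0
      apply MvPolynomial.funext
      intro g
      rw [hcon g, map_zero]
    rw [map_mul, map_mul, hDg] at hg
    have h1 := right_ne_zero_of_mul hg
    have h2 := left_ne_zero_of_mul (left_ne_zero_of_mul hg)
    have h3 := right_ne_zero_of_mul (left_ne_zero_of_mul hg)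
    rw [← h g h1 h2]
    exact h' g h1 h3
  · intro hm
    exact ⟨F, hF, fun g hg hFg => by rw [h g hg hFg]; exact hm⟩

/-- the Kalai-Sarkaria conjecture -/
theorem result (k : Type) [Field k] [CharZero k] (d n : ℕ) (hd : 1 ≤ d) (hn : d + 1 ≤ n)
    (L : Finset (Finset (Fin n))) (hL : IsComplex L) (hemb : EmbedsInSphere L d) :
    shift k L ⊆ shift k (cyclicBoundary n d) := by
  classical
  have hE : W555.KS.ConeEmb L d := by
    apply W289.KS.embS n d L hL
    obtain ⟨f, hf⟩ := hemb
    refine ⟨fun x => if hx : x ∈ realization L then (f ⟨x, hx⟩ : EuclideanSpace ℝ (Fin d)) else 0,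
      ?_, ?_, ?_⟩
    · rw [continuousOn_iff_continuous_domRestrict]
      have h0 : Continuous (fun x : realization L => (f x : EuclideanSpace ℝ (Fin d))) :=
        continuous_subtype_val.comp hf.continuous
      refine h0.congr ?_
      intro x
      have hx : (x : Fin n → ℝ) ∈ realization L := x.2
      show (f x : EuclideanSpace ℝ (Fin d)) = if hx : (x : Fin n → ℝ) ∈ realization L then
        (f ⟨(x : Fin n → ℝ), hx⟩ : EuclideanSpace ℝ (Fin d)) else 0
      rw [dif_pos hx]
    · intro x hx y hy hxy
      have hx' : x ∈ realization L := hx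
      have hy' : y ∈ realization L := hy
      simp only at hxy
      rw [dif_pos hx', dif_pos hy'] at hxy
      have h1 := hf.injective (Subtype.ext hxy)
      exact congrArg Subtype.val h1
    · intro x h1 h2 h3
      have hx' : x ∈ realization L := ⟨h1, h2, h3⟩
      simp only
      rw [dif_pos hx']
      exact mem_sphere_zero_iff_norm.1 (f ⟨x, hx'⟩).2
  have hT2 : W555.KS.StT2 := W555.KS.t2' W357.KS.Fan.fan W555.KS.halg'
  have hspec : W555.KS.StSpec := W472.KS.spec W386.KS.span hT2
  have h := W689.KS.dd (W460.KS.g1 hspec) W304.KS.g2 W386.KS.g3 W398.KS.phi_lt W540.KS.cyc_emb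
    W386.KS.supp W410.KalSar.gcnt W682.KS.gnum k n d L hd (by omega) hL hE
  exact h

end Pool.Agent.Results.MP_dd083e_co.KalaiSarkaria
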